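import Mathlib
import Pool.Agent.Helper227.Use

set_option autoImplicit false

/-! A low noncomputable set, by finite extensions with limit-computable decisions. -/

namespace Pool.Agent.H938R3

open Encodable Pool.Agent.Helper227 Nat.Partrec Filter

/-- the code number `m` -/
def cd (m : ℕ) : Code := Denumerable.ofNat Code m

/-- the string number `j` -/
def dl (j : ℕ) : List Bool := (decode (α := List Bool) j).getD []

theorem dl_encode (l : List Bool) : dl (encode l) = l := by simp [dl]

/-- bounded halting test for the code `c` on the string `τ` and the number `n` -/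
def hlt (c : Code) (s : ℕ) (τ : List Bool) (n : ℕ) : Bool := (c.evaln s (encode (τ, n))).isSome

/-- the approximation, with `s` steps, of the `k`-th extension step -/
def stepB (s k : ℕ) (σ : List Bool) : List Bool :=
  if k % 2 = 0 then σ ++ [decide (¬ ((cd (k / 2)).evaln s σ.length = some 1))]
  else
    if (List.range s).findIdx (fun j => hlt (cd (k / 2).unpair.1) s (σ ++ dl j) (k / 2).unpair.2) < s
    then σ ++ dl ((List.range s).findIdx
      (fun j => hlt (cd (k / 2).unpair.1) s (σ ++ dl j) (k / 2).unpair.2))
    else σ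

open Classical in
/-- the true `k`-th extension step -/
noncomputable def stepL (k : ℕ) (σ : List Bool) : List Bool :=
  if k % 2 = 0 then σ ++ [decide (¬ (1 ∈ (cd (k / 2)).eval σ.length))]
  else
    if h : ∃ j, ((cd (k / 2).unpair.1).eval (encode (σ ++ dl j, (k / 2).unpair.2))).Dom
    then σ ++ dl (Nat.find h) else σ

theorem eventually_evaln (c : Code) (x y : ℕ) :
    ∀ᶠ s in atTop, (c.evaln s x = some y ↔ y ∈ c.eval x) := by
  by_cases h : y ∈ c.eval x
  · obtain ⟨k, hk⟩ := Code.evaln_complete.1 h
    filter_upwards [eventually_ge_atTop k] with s hs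
    exact ⟨fun _ => h, fun _ => Code.evaln_mono hs hk⟩
  · filter_upwards with s
    exact ⟨fun h1 => absurd (Code.evaln_sound h1) h, fun h1 => absurd h1 h⟩

theorem eventually_hlt (c : Code) (τ : List Bool) (n : ℕ) :
    ∀ᶠ s in atTop, (hlt c s τ n = true ↔ (c.eval (encode (τ, n))).Dom) := by
  by_cases h : (c.eval (encode (τ, n))).Dom
  · obtain ⟨y, hy⟩ := Part.dom_iff_mem.1 h
    filter_upwards [eventually_evaln c (encode (τ, n)) y] with s hs
    refine ⟨fun _ => h, fun _ => ?_⟩
    unfold hlt
    rw [hs.2 hy]
    rfl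
  · filter_upwards with s
    refine ⟨fun h1 => ?_, fun h1 => absurd h1 h⟩
    obtain ⟨y, hy⟩ := Option.isSome_iff_exists.1 h1
    exact Part.dom_iff_mem.2 ⟨y, Code.evaln_sound hy⟩

open Classical in
theorem eventually_step (k : ℕ) (σ : List Bool) : ∀ᶠ s in atTop, stepB s k σ = stepL k σ := by
  by_cases hk : k % 2 = 0
  · filter_upwards [eventually_evaln (cd (k / 2)) σ.length 1] with s hs
    unfold stepB stepL
    rw [if_pos hk, if_pos hk]
    rw [decide_eq_decide.2 (not_congr hs)]
  · set c := cd (k / 2).unpair.1 with hc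
    set n := (k / 2).unpair.2 with hn
    by_cases h : ∃ j, (c.eval (encode (σ ++ dl j, n))).Dom
    · have e1 : ∀ᶠ s in atTop, ∀ j ≤ Nat.find h,
          (hlt c s (σ ++ dl j) n = true ↔ (c.eval (encode (σ ++ dl j, n))).Dom) := by
        have := (Finset.range (Nat.find h + 1)).eventually_all.2
          (fun j _ => eventually_hlt c (σ ++ dl j) n)
        filter_upwards [this] with s hs j hj
        exact hs j (Finset.mem_range.2 (by omega))
      filter_upwards [e1, eventually_gt_atTop (Nat.find h)] with s hs hs2
      have hidx : (List.range s).findIdx (fun j => hlt c s (σ ++ dl j) n) = Nat.find h := by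
        rw [List.findIdx_eq (by simpa using hs2)]
        constructor
        · simp only [List.getElem_range]
          exact (hs _ le_rfl).2 (Nat.find_spec h)
        · intro j hj
          simp only [List.getElem_range]
          have := (hs j hj.le).not.2 (Nat.find_min h hj)
          simpa using this
      unfold stepB stepL
      rw [if_neg hk, if_neg hk, ← hc, ← hn, hidx, if_pos hs2, dif_pos h]
    · filter_upwards with s
      have hidx : ¬ ((List.range s).findIdx (fun j => hlt c s (σ ++ dl j) n) < s) := by
        intro hlt'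
        have h2 : (List.range s).findIdx (fun j => hlt c s (σ ++ dl j) n) < (List.range s).length := by
          simpa using hlt'
        have h3 := List.findIdx_getElem (w := h2)
        simp only [List.getElem_range] at h3
        obtain ⟨y, hy⟩ := Option.isSome_iff_exists.1 h3
        exact h ⟨_, Part.dom_iff_mem.2 ⟨y, Code.evaln_sound hy⟩⟩
      unfold stepB stepL
      rw [if_neg hk, if_neg hk, ← hc, ← hn, if_neg hidx, dif_neg h]

open Classical in
theorem stepL_odd (k : ℕ) (σ : List Bool) (c : Code) (n : ℕ) (hk : k % 2 ≠ 0)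
    (hc : cd (k / 2).unpair.1 = c) (hn : (k / 2).unpair.2 = n)
    (h : ∃ j, (c.eval (encode (σ ++ dl j, n))).Dom) : (c.eval (encode (stepL k σ, n))).Dom := by
  subst hc hn
  unfold stepL
  rw [if_neg hk, dif_pos h]
  exact Nat.find_spec h

/-- approximated strings -/
def hB (s k : ℕ) : List Bool := Nat.rec (motive := fun _ => List Bool) [] (fun k σ => stepB s k σ) k

/-- true strings -/
noncomputable def sL (k : ℕ) : List Bool :=
  Nat.rec (motive := fun _ => List Bool) [] (fun k σ => stepL k σ) k

theorem hB_succ (s k : ℕ) : hB s (k + 1) = stepB s k (hB s k) := rfl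
theorem sL_succ (k : ℕ) : sL (k + 1) = stepL k (sL k) := rfl

theorem eventually_hB (k : ℕ) : ∀ᶠ s in atTop, hB s k = sL k := by
  induction k with
  | zero => exact Eventually.of_forall fun _ => rfl
  | succ k ih =>
    filter_upwards [ih, eventually_step k (sL k)] with s h1 h2
    rw [hB_succ, sL_succ, h1, h2]

theorem prefix_stepL (k : ℕ) (σ : List Bool) : σ <+: stepL k σ := by
  unfold stepL
  split_ifs
  · exact List.prefix_append _ _
  · exact List.prefix_append _ _
  · exact List.prefix_rfl

theorem sL_prefix {k l : ℕ} (h : k ≤ l) : sL k <+: sL l := by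
  induction l, h using Nat.le_induction with
  | base => exact List.prefix_rfl
  | succ l _ ih => exact ih.trans (by rw [sL_succ]; exact prefix_stepL _ _)

theorem length_sL (m : ℕ) : m ≤ (sL (2 * m)).length := by
  induction m with
  | zero => omega
  | succ m ih =>
    have h1 : (sL (2 * m + 1)).length = (sL (2 * m)).length + 1 := by
      rw [sL_succ]
      unfold stepL
      rw [if_pos (by omega)]
      simp
    have h2 := (sL_prefix (show 2 * m + 1 ≤ 2 * (m + 1) by omega)).length_le
    omega

/-- the low set -/
noncomputable def LA (n : ℕ) : Bool := (sL (2 * (n + 1))).getD n false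

theorem LA_eq {k n : ℕ} (h : n < (sL k).length) : (sL k)[n] = LA n := by
  have hl := length_sL (n + 1)
  unfold LA
  have h1 := sL_prefix (le_max_left k (2 * (n + 1)))
  have h2 := sL_prefix (le_max_right k (2 * (n + 1)))
  have e1 : (sL (max k (2 * (n + 1))))[n]'(by have := h1.length_le; omega) = (sL k)[n] :=
    (h1.getElem h).symm
  have e2 : (sL (max k (2 * (n + 1))))[n]'(by have := h1.length_le; omega)
      = (sL (2 * (n + 1)))[n]'(by omega) :=
    (h2.getElem (by omega)).symm
  rw [← e1, e2]
  rw [List.getD_eq_getElem _ _ (by omega)]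

theorem pre_LA (k : ℕ) : pre LA (sL k).length = sL k := by
  apply List.ext_getElem
  · simp
  · intro i h1 h2
    rw [getElem_pre, LA_eq h2]

open Classical in
theorem not_computable_LA : ¬ Computable LA := by
  intro hc
  have h1 : Computable (fun n => (LA n).toNat) := (Primrec.dom_bool Bool.toNat).to_comp.comp hc
  obtain ⟨c, hcc⟩ := Code.exists_code.1 (Partrec.nat_iff.1 h1)
  set m := encode c with hm
  have hcd : cd m = c := Denumerable.ofNat_encode c
  set l := (sL (2 * m)).length with hl
  have e1 : sL (2 * m + 1) = sL (2 * m) ++ [decide (¬ (1 ∈ c.eval l))] := by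
    rw [sL_succ]
    unfold stepL
    rw [if_pos (by omega), show 2 * m / 2 = m by omega, hcd]
  have e2 : LA l = decide (¬ (1 ∈ c.eval l)) := by
    have hlt : l < (sL (2 * m + 1)).length := by rw [e1]; simp [hl]
    rw [← LA_eq hlt]
    simp [e1, hl]
  have e3 : c.eval l = Part.some (LA l).toNat := by rw [hcc]; rfl
  rw [e3] at e2
  cases h : LA l with
  | true => rw [h] at e2; simp at e2
  | false => rw [h] at e2; simp at e2

section prim

theorem prim_cd : Primrec cd := Primrec.ofNat Code

theorem prim_dl : Primrec dl :=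
  (Primrec.option_getD.comp Primrec.decode (Primrec.const [])).of_eq fun _ => rfl

variable {α : Type*} [Primcodable α]

theorem prim_hlt {c : α → Code} {s : α → ℕ} {τ : α → List Bool} {n : α → ℕ} (hc : Primrec c)
    (hs : Primrec s) (ht : Primrec τ) (hn : Primrec n) :
    Primrec fun a => hlt (c a) (s a) (τ a) (n a) :=
  Primrec.option_isSome.comp (Code.primrec_evaln.comp ((hs.pair hc).pair
    (Primrec.encode.comp (ht.pair hn))))

theorem prim_stepB : Primrec fun p : ℕ × ℕ × List Bool => stepB p.1 p.2.1 p.2.2 := by
  have hs : Primrec fun p : ℕ × ℕ × List Bool => p.1 := Primrec.fst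
  have hk : Primrec fun p : ℕ × ℕ × List Bool => p.2.1 := Primrec.fst.comp Primrec.snd
  have hσ : Primrec fun p : ℕ × ℕ × List Bool => p.2.2 := Primrec.snd.comp Primrec.snd
  have hk2 : Primrec fun p : ℕ × ℕ × List Bool => p.2.1 / 2 :=
    Primrec.nat_div.comp hk (Primrec.const 2)
  have hu : Primrec fun p : ℕ × ℕ × List Bool => (p.2.1 / 2).unpair := Primrec.unpair.comp hk2
  have hfi : Primrec fun p : ℕ × ℕ × List Bool => (List.range p.1).findIdx
      (fun j => hlt (cd (p.2.1 / 2).unpair.1) p.1 (p.2.2 ++ dl j) (p.2.1 / 2).unpair.2) := by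
    refine Primrec.list_findIdx (Primrec.list_range.comp hs) ?_
    refine prim_hlt (prim_cd.comp (Primrec.fst.comp (hu.comp Primrec.fst))) (hs.comp Primrec.fst)
      (Primrec.list_append.comp (hσ.comp Primrec.fst) (prim_dl.comp Primrec.snd))
      (Primrec.snd.comp (hu.comp Primrec.fst))
  unfold stepB
  refine Primrec.ite (Primrec.eq.comp (Primrec.nat_mod.comp hk (Primrec.const 2))
    (Primrec.const 0)) ?_ ?_
  · refine Primrec.list_append.comp hσ (Primrec.list_cons.comp ?_ (Primrec.const []))
    have h1 : Primrec fun p : ℕ × ℕ × List Bool => (cd (p.2.1 / 2)).evaln p.1 p.2.2.length :=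
      Code.primrec_evaln.comp ((hs.pair (prim_cd.comp hk2)).pair (Primrec.list_length.comp hσ))
    exact (PrimrecPred.not (Primrec.eq.comp h1 (Primrec.const (some 1)))).decide
  · refine Primrec.ite (Primrec.nat_lt.comp hfi hs) ?_ hσ
    exact Primrec.list_append.comp hσ (prim_dl.comp hfi)

theorem prim_hB : Primrec₂ hB := by
  unfold hB
  refine Primrec.nat_rec' (α := ℕ × ℕ) (f := fun p => p.2) (g := fun _ => ([] : List Bool))
    (h := fun p q => stepB p.1 q.1 q.2) Primrec.snd (Primrec.const []) ?_
  exact prim_stepB.comp ((Primrec.fst.comp Primrec.fst).pair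
    ((Primrec.fst.comp Primrec.snd).pair (Primrec.snd.comp Primrec.snd)))

end prim

theorem low_LA (G : List Bool × ℕ → Prop) (hG : S1 G)
    (hmono : ∀ σ τ n, σ <+: τ → G (σ, n) → G (τ, n)) :
    ∃ g : ℕ → ℕ → Bool, Computable₂ g ∧
      ∀ n : ℕ, ∀ᶠ s in atTop, (g n s = true ↔ ∃ t, G (pre LA t, n)) := by
  have hcode : ∃ c : Code, ∀ a, (c.eval (encode a)).Dom ↔ G a := by
    obtain ⟨q, ⟨hd, hq⟩, hm, he⟩ := hG
    have h1 : Partrec fun a : List Bool × ℕ =>
        Nat.rfind fun n => Part.some (@decide (q a n) (hd (a, n))) := by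
      apply Partrec.rfind
      exact (Primrec.to_comp hq).partrec
    obtain ⟨c, hc⟩ := Code.exists_code.1 h1
    refine ⟨c, fun a => ?_⟩
    rw [hc, he a]
    simp only [encodek, Part.coe_some, Part.bind_some, Part.map_Dom]
    refine Nat.rfind_dom.trans ?_
    simp
  obtain ⟨c, hc⟩ := hcode
  have key : ∀ n, (∃ t, G (pre LA t, n)) ↔ (c.eval (encode (sL (2 * Nat.pair (encode c) n + 2), n))).Dom := by
    intro n
    set m := Nat.pair (encode c) n with hm
    have hm1 : cd m.unpair.1 = c := by
      rw [hm, Nat.unpair_pair]; exact Denumerable.ofNat_encode c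
    have hm2 : m.unpair.2 = n := by rw [hm, Nat.unpair_pair]
    have hstep : sL (2 * m + 2) = stepL (2 * m + 1) (sL (2 * m + 1)) := sL_succ _
    constructor
    · rintro ⟨t, ht⟩
      set σ := sL (2 * m + 1) with hσ
      have hex : ∃ j, (c.eval (encode (σ ++ dl j, n))).Dom := by
        have h1 : σ <+: pre LA (max t σ.length) := by
          have := pre_prefix LA (le_max_right t σ.length)
          rwa [hσ, pre_LA, ← hσ] at this
        obtain ⟨ρ, hρ⟩ := h1
        refine ⟨encode ρ, ?_⟩
        rw [dl_encode, hρ, hc]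
        exact hmono _ _ _ (pre_prefix LA (le_max_left _ _)) ht
      rw [hstep]
      have hdiv : (2 * m + 1) / 2 = m := by omega
      exact stepL_odd (2 * m + 1) σ c n (by omega) (by rw [hdiv, hm1]) (by rw [hdiv, hm2]) hex
    · intro h
      rw [hc] at h
      exact ⟨_, by rw [pre_LA]; exact h⟩
  refine ⟨fun n s => hlt c s (hB s (2 * Nat.pair (encode c) n + 2)) n, ?_, fun n => ?_⟩
  · refine Primrec.to_comp ?_
    refine prim_hlt (Primrec.const c) Primrec.snd (prim_hB.comp Primrec.snd ?_) Primrec.fst
    exact Primrec.nat_add.comp (Primrec.nat_mul.comp (Primrec.const 2)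
      (Primrec₂.natPair.comp (Primrec.const _) Primrec.fst)) (Primrec.const 2)
  · rw [key]
    filter_upwards [eventually_hB (2 * Nat.pair (encode c) n + 2),
      eventually_hlt c (sL (2 * Nat.pair (encode c) n + 2)) n] with s h1 h2
    rw [h1, h2]

end Pool.Agent.H938R3
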