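import Mathlib
import Pool.Agent.H938R3.Low
import Pool.Agent.H938R3.IntPrim

set_option autoImplicit false

/-! The real number with base-4 digits `1 + A n`, and the order of `ℤ × ℤ` it induces. -/

namespace Pool.Agent.H938R3

open Encodable Pool.Agent.Helper227 Filter

/-- numerator given by the digits `1 + b` in base four -/
def val (τ : List Bool) : ℕ := τ.foldl (fun p b => 4 * p + 1 + b.toNat) 0

variable (A : ℕ → Bool)

theorem val_succ (n : ℕ) : val (pre A (n + 1)) = 4 * val (pre A n) + 1 + (A n).toNat := by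
  simp [val, pre_succ]

theorem bt (b : Bool) : b.toNat ≤ 1 := by cases b <;> simp

theorem val_lower (n : ℕ) : (val (pre A n) : ℝ) / 4 ^ n ≤ val (pre A (n + 1)) / 4 ^ (n + 1) := by
  rw [val_succ, div_le_div_iff₀ (by positivity) (by positivity)]
  push_cast
  rw [pow_succ]
  have : (0:ℝ) ≤ (A n).toNat := by positivity
  nlinarith [show (0:ℝ) < 4 ^ n by positivity]

theorem val_upper (n : ℕ) :
    ((val (pre A (n + 1)) : ℝ) + 2 / 3) / 4 ^ (n + 1) ≤ (val (pre A n) + 2 / 3) / 4 ^ n := by
  rw [val_succ, div_le_div_iff₀ (by positivity) (by positivity)]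
  push_cast
  rw [pow_succ]
  have h1 : ((A n).toNat : ℝ) ≤ 1 := by exact_mod_cast bt (A n)
  have h2 : (0:ℝ) < 4 ^ n := by positivity
  nlinarith [mul_le_mul_of_nonneg_right h1 h2.le]

theorem val_cross (m n : ℕ) :
    (val (pre A m) : ℝ) / 4 ^ m ≤ ((val (pre A n) : ℝ) + 2 / 3) / 4 ^ n := by
  have hu : Monotone fun n => (val (pre A n) : ℝ) / 4 ^ n := monotone_nat_of_le_succ (val_lower A)
  have hv : Antitone fun n => ((val (pre A n) : ℝ) + 2 / 3) / 4 ^ n :=
    antitone_nat_of_succ_le (val_upper A)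
  have h0 : ∀ k, (val (pre A k) : ℝ) / 4 ^ k ≤ ((val (pre A k) : ℝ) + 2 / 3) / 4 ^ k := by
    intro k
    gcongr
    linarith
  rcases le_total m n with h | h
  · exact (hu h).trans (h0 n)
  · exact (h0 m).trans (hv h)

/-- the real number -/
noncomputable def alp : ℝ := ⨆ n : ℕ, (val (pre A n) : ℝ) / 4 ^ n

theorem bdd : BddAbove (Set.range fun n : ℕ => (val (pre A n) : ℝ) / 4 ^ n) := by
  refine ⟨((val (pre A 0) : ℝ) + 2 / 3) / 4 ^ 0, ?_⟩
  rintro _ ⟨m, rfl⟩
  exact val_cross A m 0

theorem le_alp (n : ℕ) : (val (pre A n) : ℝ) ≤ 4 ^ n * alp A := by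
  have h := le_ciSup (bdd A) n
  have h2 : (val (pre A n) : ℝ) / 4 ^ n ≤ alp A := h
  rw [div_le_iff₀ (by positivity)] at h2
  linarith

theorem alp_lt (n : ℕ) : 4 ^ n * alp A < (val (pre A n) : ℝ) + 1 := by
  have h : alp A ≤ ((val (pre A n) : ℝ) + 2 / 3) / 4 ^ n := ciSup_le fun m => val_cross A m n
  rw [le_div_iff₀ (by positivity)] at h
  linarith

theorem alp_pos : 0 < alp A := by
  have h := le_alp A 1
  rw [val_succ] at h
  push_cast at h
  have h1 : (0:ℝ) ≤ (A 0).toNat := by positivity
  have h2 : (0:ℝ) ≤ (val (pre A 0)) := by positivity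
  nlinarith

/-- A computable cut gives a computable set. -/
theorem comp_of_cut (R : ℕ × ℕ → Prop) (hR : ComputablePred R)
    (h : ∀ k n, R (k, n) ↔ (k : ℝ) ≤ 4 ^ n * alp A) : Computable A := by
  obtain ⟨hd, hc⟩ := hR
  have hp : Computable fun x : ℕ × ℕ =>
      (decide (R (x.2, x.1 + 1)) && !decide (R (x.2 + 1, x.1 + 1))) := by
    refine Primrec.and.to_comp.comp (hc.comp (Computable.pair Computable.snd
      (Primrec.succ.to_comp.comp Computable.fst))) (Primrec.not.to_comp.comp (hc.comp
      (Computable.pair (Primrec.succ.to_comp.comp Computable.snd)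
        (Primrec.succ.to_comp.comp Computable.fst))))
  have hf : Partrec fun n : ℕ => Nat.rfind fun k => Part.some
      (decide (R (k, n + 1)) && !decide (R (k + 1, n + 1))) := by
    apply Partrec.rfind
    exact hp.partrec
  have hval : Computable fun n => val (pre A (n + 1)) := by
    refine Partrec.of_eq_tot hf fun n => ?_
    refine Nat.mem_rfind.2 ⟨?_, ?_⟩
    · rw [Part.mem_some_iff]
      symm
      rw [Bool.and_eq_true, decide_eq_true_iff, Bool.not_eq_true', decide_eq_false_iff_not, h, h]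
      refine ⟨le_alp A _, ?_⟩
      push_cast
      exact not_le.2 (alp_lt A _)
    · intro m hm
      rw [Part.mem_some_iff]
      symm
      have h2 : R (m + 1, n + 1) := by
        rw [h]
        refine le_trans ?_ (le_alp A _)
        exact_mod_cast hm
      simp [h2]
  have h3 : Computable fun n => decide (val (pre A (n + 1)) % 4 = 2) := by
    have : Primrec fun v : ℕ => decide (v % 4 = 2) :=
      (Primrec.eq.comp (Primrec.nat_mod.comp Primrec.id (Primrec.const 4)) (Primrec.const 2)).decide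
    exact this.to_comp.comp hval
  refine h3.of_eq fun n => ?_
  rw [val_succ]
  have h5 : (4 * val (pre A n) + 1 + (A n).toNat) % 4 = 1 + (A n).toNat := by
    have := bt (A n)
    omega
  rw [h5]
  cases A n
  · rfl
  · rfl

/-- the linear form -/
noncomputable def lf (x : ℤ × ℤ) : ℝ := x.1 + x.2 * alp A

theorem lf_sub (x y : ℤ × ℤ) : lf A (x - y) = lf A x - lf A y := by
  simp only [lf, Prod.fst_sub, Prod.snd_sub]
  push_cast
  ring

theorem lf_add (x y : ℤ × ℤ) : lf A (x + y) = lf A x + lf A y := by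
  simp only [lf, Prod.fst_add, Prod.snd_add]
  push_cast
  ring

theorem lf_eq_zero (hA : ¬ Computable A) (x : ℤ × ℤ) (h : lf A x = 0) : x = 0 := by
  obtain ⟨a, b⟩ := x
  simp only [lf] at h
  by_cases hb : b = 0
  · subst hb
    simp at h
    simp [h]
  · exfalso
    apply hA
    have hbr : (b : ℝ) ≠ 0 := by exact_mod_cast hb
    have h1 : (b.natAbs : ℝ) * alp A = a.natAbs := by
      have h2 : (b : ℝ) * alp A = -a := by linarith
      have h3 : |(b : ℝ) * alp A| = |(-a : ℝ)| := by rw [h2]
      rw [abs_mul, abs_of_pos (alp_pos A), abs_neg] at h3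
      rw [Nat.cast_natAbs, Nat.cast_natAbs]
      push_cast
      exact h3
    have hq : (0 : ℝ) < b.natAbs := by
      exact_mod_cast Int.natAbs_pos.2 hb
    refine comp_of_cut A (fun x => x.1 * b.natAbs ≤ 4 ^ x.2 * a.natAbs) ?_ ?_
    · have h1 : PrimrecPred fun x : ℕ × ℕ => x.1 * b.natAbs ≤ 4 ^ x.2 * a.natAbs :=
        Primrec.nat_le.comp (Primrec.nat_mul.comp Primrec.fst (Primrec.const _))
          (Primrec.nat_mul.comp (prim_pow4.comp Primrec.snd) (Primrec.const _))
      obtain ⟨hd, h2⟩ := h1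
      exact ⟨hd, h2.to_comp⟩
    · intro k n
      simp only
      have h4 : ((k * b.natAbs : ℕ) : ℝ) ≤ ((4 ^ n * a.natAbs : ℕ) : ℝ) ↔
          (k : ℝ) ≤ 4 ^ n * alp A := by
        push_cast
        rw [← h1]
        rw [show (4 : ℝ) ^ n * (b.natAbs * alp A) = (4 ^ n * alp A) * b.natAbs by ring]
        exact mul_le_mul_iff_left₀ hq
      rw [← h4]
      norm_cast

theorem lf_inj (hA : ¬ Computable A) : Function.Injective (lf A) := by
  intro x y h
  have := lf_eq_zero A hA (x - y) (by rw [lf_sub, h, sub_self])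
  exact sub_eq_zero.1 this

/-- the pair number `i` -/
def pr (i : ℕ) : ℤ × ℤ := Denumerable.ofNat (ℤ × ℤ) i

/-- difference of the two pairs coded by `i` -/
def df (i : ℕ) : ℤ × ℤ := pr i.unpair.2 - pr i.unpair.1

/-- lower estimate -/
def lo (τ : List Bool) (i : ℕ) : ℤ := (df i).1 * (4 ^ τ.length : ℕ) + (df i).2 * (val τ : ℤ)

/-- upper estimate -/
def hi (τ : List Bool) (i : ℕ) : ℤ := lo τ i + (df i).2

/-- the string `τ` decides the sign -/
def forced (τ : List Bool) (i : ℕ) (β : Bool) : Prop :=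
  (β = true ∧ 0 ≤ lo τ i ∧ 0 ≤ hi τ i) ∨ (β = false ∧ lo τ i < 0 ∧ hi τ i < 0)

theorem forced_sound (t i : ℕ) (β : Bool) (h : forced (pre A t) i β) :
    (β = true ↔ 0 ≤ lf A (df i)) := by
  set a := (df i).1 with ha
  set b := (df i).2 with hb
  have e0 : lf A (df i) = a + b * alp A := rfl
  have e1 : (lo (pre A t) i : ℝ) = a * 4 ^ t + b * val (pre A t) := by
    simp only [lo, length_pre]
    push_cast
    rfl
  have e2 : (hi (pre A t) i : ℝ) = a * 4 ^ t + b * (val (pre A t) + 1) := by
    simp only [hi]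
    push_cast
    rw [e1]
    ring
  have hl := le_alp A t
  have hu := alp_lt A t
  have h4 : (0 : ℝ) < 4 ^ t := by positivity
  rcases h with ⟨rfl, h1, h2⟩ | ⟨rfl, h1, h2⟩
  · refine ⟨fun _ => ?_, fun _ => rfl⟩
    have h1' : (0:ℝ) ≤ lo (pre A t) i := by exact_mod_cast h1
    have h2' : (0:ℝ) ≤ hi (pre A t) i := by exact_mod_cast h2
    rw [e1] at h1'
    rw [e2] at h2'
    rw [e0]
    have key : 0 ≤ 4 ^ t * ((a:ℝ) + b * alp A) := by
      rcases le_total 0 (b:ℝ) with hb0 | hb0
      · nlinarith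
      · nlinarith
    exact (mul_nonneg_iff_of_pos_left h4).1 key
  · refine ⟨fun h => absurd h (by simp), fun h => ?_⟩
    exfalso
    have h1' : (lo (pre A t) i : ℝ) < 0 := by exact_mod_cast h1
    have h2' : (hi (pre A t) i : ℝ) < 0 := by exact_mod_cast h2
    rw [e1] at h1'
    rw [e2] at h2'
    rw [e0] at h
    have key : 0 ≤ 4 ^ t * ((a:ℝ) + b * alp A) := mul_nonneg h4.le h
    rcases le_total 0 (b:ℝ) with hb0 | hb0
    · nlinarith
    · nlinarith

theorem forced_complete (hA : ¬ Computable A) (i : ℕ) (β : Bool)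
    (h : β = true ↔ 0 ≤ lf A (df i)) : ∀ᶠ t in atTop, forced (pre A t) i β := by
  by_cases hz : df i = 0
  · have hβ : β = true := h.2 (by rw [hz]; simp [lf])
    filter_upwards with t
    left
    refine ⟨hβ, ?_, ?_⟩
    · simp [lo, hz]
    · simp [hi, lo, hz]
  · have hne : lf A (df i) ≠ 0 := fun h0 => hz (lf_eq_zero A hA _ h0)
    set a := (df i).1 with ha
    set b := (df i).2 with hb
    have e0 : lf A (df i) = a + b * alp A := rfl
    have hlim : Tendsto (fun t : ℕ => (4:ℝ) ^ t * |lf A (df i)|) atTop atTop :=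
      (tendsto_pow_atTop_atTop_of_one_lt (by norm_num)).atTop_mul_const (abs_pos.2 hne)
    filter_upwards [hlim.eventually_gt_atTop (|(b:ℝ)|)] with t ht
    have e1 : (lo (pre A t) i : ℝ) = a * 4 ^ t + b * val (pre A t) := by
      simp only [lo, length_pre]
      push_cast
      rfl
    have e2 : (hi (pre A t) i : ℝ) = a * 4 ^ t + b * (val (pre A t) + 1) := by
      simp only [hi]
      push_cast
      rw [e1]
      ring
    have hl := le_alp A t
    have hu := alp_lt A t
    have h4 : (0 : ℝ) < 4 ^ t := by positivity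
    have hb1 : |(b:ℝ) * (4 ^ t * alp A - val (pre A t))| ≤ |(b:ℝ)| := by
      rw [abs_mul]
      have : |4 ^ t * alp A - (val (pre A t) : ℝ)| ≤ 1 := by
        rw [abs_le]; constructor <;> linarith
      nlinarith [abs_nonneg (b:ℝ)]
    have hb2 : |(b:ℝ) * (4 ^ t * alp A - (val (pre A t) + 1))| ≤ |(b:ℝ)| := by
      rw [abs_mul]
      have : |4 ^ t * alp A - ((val (pre A t) : ℝ) + 1)| ≤ 1 := by
        rw [abs_le]; constructor <;> linarith
      nlinarith [abs_nonneg (b:ℝ)]
    rw [abs_le] at hb1 hb2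
    rcases lt_or_gt_of_ne hne with hneg | hpos
    · right
      have hβ : β = false := by
        cases β with
        | false => rfl
        | true => exact absurd (h.1 rfl) (not_le.2 hneg)
      rw [abs_of_neg hneg] at ht
      rw [e0] at ht
      refine ⟨hβ, ?_, ?_⟩
      · have : (lo (pre A t) i : ℝ) < 0 := by rw [e1]; nlinarith
        exact_mod_cast this
      · have : (hi (pre A t) i : ℝ) < 0 := by rw [e2]; nlinarith
        exact_mod_cast this
    · left
      have hβ : β = true := h.2 hpos.le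
      rw [abs_of_pos hpos] at ht
      rw [e0] at ht
      refine ⟨hβ, ?_, ?_⟩
      · have : 0 ≤ (lo (pre A t) i : ℝ) := by rw [e1]; nlinarith
        exact_mod_cast this
      · have : 0 ≤ (hi (pre A t) i : ℝ) := by rw [e2]; nlinarith
        exact_mod_cast this

section prim

theorem prim_val : Primrec val := by
  unfold val
  refine Primrec.list_foldl (α := List Bool) (f := fun τ => τ) (g := fun _ => 0)
    (h := fun _ p => 4 * p.1 + 1 + p.2.toNat) Primrec.id (Primrec.const 0) ?_
  have hp : Primrec fun x : List Bool × (ℕ × Bool) => x.2.1 := Primrec.fst.comp Primrec.snd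
  have hb : Primrec fun x : List Bool × (ℕ × Bool) => x.2.2.toNat :=
    (Primrec.dom_bool Bool.toNat).comp (Primrec.snd.comp Primrec.snd)
  exact Primrec.nat_add.comp (Primrec.nat_add.comp (Primrec.nat_mul.comp (Primrec.const 4) hp)
    (Primrec.const 1)) hb

theorem prim_df : Primrec df := by
  have h1 : Primrec fun i : ℕ => pr i.unpair.1 :=
    (Primrec.ofNat (ℤ × ℤ)).comp (Primrec.fst.comp Primrec.unpair)
  have h2 : Primrec fun i : ℕ => pr i.unpair.2 :=
    (Primrec.ofNat (ℤ × ℤ)).comp (Primrec.snd.comp Primrec.unpair)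
  exact (prim_int_sub.comp (Primrec.fst.comp h2) (Primrec.fst.comp h1)).pair
    (prim_int_sub.comp (Primrec.snd.comp h2) (Primrec.snd.comp h1))

theorem prim_lo : Primrec fun x : List Bool × ℕ => lo x.1 x.2 := by
  have hd : Primrec fun x : List Bool × ℕ => df x.2 := prim_df.comp Primrec.snd
  exact prim_int_add.comp (prim_int_mul.comp (Primrec.fst.comp hd)
    (prim_natCast.comp (prim_pow4.comp (Primrec.list_length.comp Primrec.fst))))
    (prim_int_mul.comp (Primrec.snd.comp hd) (prim_natCast.comp (prim_val.comp Primrec.fst)))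

theorem prim_hi : Primrec fun x : List Bool × ℕ => hi x.1 x.2 :=
  prim_int_add.comp prim_lo (Primrec.snd.comp (prim_df.comp Primrec.snd))

theorem prim_forced : PrimrecPred fun x : (List Bool × ℕ) × Bool => forced x.1.1 x.1.2 x.2 := by
  have hl : Primrec fun x : (List Bool × ℕ) × Bool => lo x.1.1 x.1.2 := prim_lo.comp Primrec.fst
  have hh : Primrec fun x : (List Bool × ℕ) × Bool => hi x.1.1 x.1.2 := prim_hi.comp Primrec.fst
  refine PrimrecPred.or (PrimrecPred.and ?_ (PrimrecPred.and ?_ ?_))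
    (PrimrecPred.and ?_ (PrimrecPred.and ?_ ?_))
  · exact Primrec.eq.comp Primrec.snd (Primrec.const true)
  · exact prim_int_le.comp (Primrec.const 0) hl
  · exact prim_int_le.comp (Primrec.const 0) hh
  · exact Primrec.eq.comp Primrec.snd (Primrec.const false)
  · exact prim_int_lt.comp hl (Primrec.const 0)
  · exact prim_int_lt.comp hh (Primrec.const 0)

end prim

/-- the characteristic sequence of the order, on codes -/
noncomputable def ordB (i : ℕ) : Bool :=
  @decide (0 ≤ lf A (df i)) (Classical.propDecidable _)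

theorem ordB_iff (i : ℕ) : ordB A i = true ↔ 0 ≤ lf A (df i) := by
  unfold ordB
  exact @decide_eq_true_iff _ (Classical.propDecidable _)

/-- transfer of Sigma-one facts about the order to Sigma-one facts about `A` -/
theorem transfer (hA : ¬ Computable A) (G : List Bool × ℕ → Prop) (hG : S1 G) :
    ∃ G' : List Bool × ℕ → Prop, S1 G' ∧ (∀ σ τ n, σ <+: τ → G' (σ, n) → G' (τ, n)) ∧
      ∀ n, (∃ s, G (pre (ordB A) s, n)) ↔ ∃ t, G' (pre A t, n) := by
  refine ⟨fun x => ∃ σ τ ρ : List Bool, (τ ++ ρ = x.1 ∧ G (σ, x.2)) ∧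
    ∀ i < σ.length, forced τ i (σ.getD i false), ?_, ?_, ?_⟩
  · refine S1.ex (S1.ex (S1.ex (S1.and (S1.and (S1.of_prim ?_) (hG.comp ?_))
      (S1.all_lt (S1.of_prim ?_) ?_))))
    · exact Primrec.eq.comp (Primrec.list_append.comp (Primrec.snd.comp Primrec.fst) Primrec.snd)
        (Primrec.fst.comp (Primrec.fst.comp (Primrec.fst.comp Primrec.fst)))
    · exact (Primrec.snd.comp (Primrec.fst.comp Primrec.fst)).pair
        (Primrec.snd.comp (Primrec.fst.comp (Primrec.fst.comp Primrec.fst)))
    · refine prim_forced.comp (((Primrec.snd.comp (Primrec.fst.comp Primrec.fst)).pair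
        Primrec.snd).pair ((Primrec.list_getD false).comp
          (Primrec.snd.comp (Primrec.fst.comp (Primrec.fst.comp Primrec.fst))) Primrec.snd))
    · exact Primrec.list_length.comp (Primrec.snd.comp (Primrec.fst.comp Primrec.fst))
  · rintro σ τ n ⟨ρ0, rfl⟩ ⟨σ', τ', ρ, ⟨h1, h2⟩, h3⟩
    refine ⟨σ', τ', ρ ++ ρ0, ⟨?_, h2⟩, h3⟩
    simp only at h1 ⊢
    rw [← h1, List.append_assoc]
  · intro n
    constructor
    · rintro ⟨s, hs⟩
      have h1 : ∀ᶠ t in atTop, ∀ i ∈ Finset.range s, forced (pre A t) i (ordB A i) :=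
        (Finset.range s).eventually_all.2 fun i _ => forced_complete A hA i _ (ordB_iff A i)
      obtain ⟨t, ht⟩ := h1.exists
      refine ⟨t, pre (ordB A) s, pre A t, [], ⟨by simp, hs⟩, fun i hi => ?_⟩
      rw [length_pre] at hi
      rw [pre_getD _ _ _ _ hi]
      exact ht i (Finset.mem_range.2 hi)
    · rintro ⟨t, σ, τ, ρ, ⟨h1, h2⟩, h3⟩
      have h4 : τ = pre A τ.length := pre_eq_of_prefix (n := t) ⟨ρ, h1⟩
      have h5 : σ = pre (ordB A) σ.length := by
        apply List.ext_getElem
        · simp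
        · intro i h6 h7
          rw [getElem_pre]
          have h8 := h3 i h6
          rw [h4] at h8
          have h9 := forced_sound A _ _ _ h8
          rw [List.getD_eq_getElem _ _ h6] at h9
          rw [Bool.eq_iff_iff, h9, ordB_iff]
      exact ⟨σ.length, by rw [← h5]; exact h2⟩

end Pool.Agent.H938R3
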